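import Pool.Agent.K3h30.RS.Stm2
import Pool.Agent.K3h62.RS.LFUN

/-!
# Rubin's conjecture: uniqueness of the Stark element
-/

set_option autoImplicit false

open NumberField IsDedekindDomain Filter Topology

noncomputable section

namespace Pool.Agent.K3h3.RS

open Pool.Agent.K3h30.RS Pool.Agent.K3h62.RS

/-- The characters of a finite commutative group separate the elements of `ℚ[G]`. -/
theorem eq_zero_of_charValue {G : Type} [CommGroup G] [Finite G] (z : MonoidAlgebra ℚ G)
    (hz : ∀ χ : G →* ℂˣ, charValue χ (toR z) = 0) : z = 0 := by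
  classical
  let _ := Fintype.ofFinite G
  have h1 : ∀ ψ : AddChar (Additive G) ℂ,
      ∑ γ : G, ((z.coeff γ : ℚ) : ℂ) * ψ (Additive.ofMul γ) = 0 := by
    intro ψ
    let θ : G →* ℂ :=
      { toFun := fun g => ψ (Additive.ofMul g)
        map_one' := by rw [ofMul_one, AddChar.map_zero_eq_one]
        map_mul' := by intro a b; rw [ofMul_mul, AddChar.map_add_eq_mul] }
    have h2 := hz (MonoidHom.toHomUnits θ)
    unfold charValue at h2
    rw [← h2]
    refine Finset.sum_congr (by congr!) fun γ _ => ?_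
    have h3 : ((MonoidHom.toHomUnits θ γ : ℂˣ) : ℂ) = θ γ := by
      exact MonoidHom.coe_toHomUnits θ γ
    rw [h3]
    congr 1
  ext g
  have h4 : ∑ ψ : AddChar (Additive G) ℂ, ψ (-(Additive.ofMul g)) *
      ∑ γ : G, ((z.coeff γ : ℚ) : ℂ) * ψ (Additive.ofMul γ) = 0 :=
    Finset.sum_eq_zero fun ψ _ => by rw [h1 ψ, mul_zero]
  have h5 : ∑ ψ : AddChar (Additive G) ℂ, ψ (-(Additive.ofMul g)) *
      ∑ γ : G, ((z.coeff γ : ℚ) : ℂ) * ψ (Additive.ofMul γ) =
      ∑ γ : G, ((z.coeff γ : ℚ) : ℂ) *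
        ∑ ψ : AddChar (Additive G) ℂ, ψ (Additive.ofMul γ - Additive.ofMul g) := by
    simp_rw [Finset.mul_sum]
    rw [Finset.sum_comm]
    refine Finset.sum_congr rfl fun γ _ => Finset.sum_congr rfl fun ψ _ => ?_
    rw [sub_eq_add_neg, AddChar.map_add_eq_mul]
    ring
  rw [h5] at h4
  have h6 : ∀ γ : G, ∑ ψ : AddChar (Additive G) ℂ, ψ (Additive.ofMul γ - Additive.ofMul g) =
      if γ = g then (Fintype.card (Additive G) : ℂ) else 0 := by
    intro γ
    rw [AddChar.sum_apply_eq_ite]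
    congr 1
    rw [sub_eq_zero]
    simp
  simp_rw [h6] at h4
  simp only [mul_ite, mul_zero, Finset.sum_ite_eq', Finset.mem_univ, if_true] at h4
  have h7 : (Fintype.card (Additive G) : ℂ) ≠ 0 := by
    exact_mod_cast Fintype.card_ne_zero
  have h8 := (mul_eq_zero.1 h4).resolve_right h7
  have h9 : z.coeff g = 0 := by exact_mod_cast h8
  simpa using h9

/-- The value of a character at an element of `ℚ[G]`, as a ring homomorphism. -/
def cvQ {G : Type} [CommGroup G] (χ : G →* ℂˣ) : MonoidAlgebra ℚ G →+* ℂ :=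
  ((cvHom χ : MonoidAlgebra ℝ G →ₐ[ℝ] ℂ) : MonoidAlgebra ℝ G →+* ℂ).comp toR

theorem cvQ_apply {G : Type} [CommGroup G] [Finite G] (χ : G →* ℂˣ) (z : MonoidAlgebra ℚ G) :
    cvQ χ z = charValue χ (toR z) := by
  rw [charValue_eq]
  rfl

variable {F H G : Type} [Field F] [NumberField F] [Field H] [NumberField H] [Algebra F H]
  [CommGroup G] [Finite G] [MulSemiringAction G H]

/-- The products in the definition of `L_{S,T}` tend to the values at `δ_T`. -/
theorem tendsto_prod (D : RubinData F H G) (χ : G →* ℂˣ) (T' : Finset (HeightOneSpectrum (𝓞 F))) :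
    Tendsto (fun s : ℂ => ∏ v ∈ T', (1 - ((χ⁻¹ (D.σ v) : ℂˣ) : ℂ) *
        (Ideal.absNorm v.asIdeal : ℂ) ^ (1 - s))) (𝓝[≠] 0)
      (𝓝 (charValue χ (toR (D.delta T')))) := by
  rw [charValue_delta D χ T']
  refine (Continuous.tendsto ?_ 0).mono_left nhdsWithin_le_nhds
  refine continuous_finsetProd _ fun v _ => ?_
  refine continuous_const.sub (continuous_const.mul ?_)
  refine Continuous.const_cpow (by fun_prop) (Or.inl ?_)
  have := two_le_absNorm v
  exact_mod_cast (by omega : Ideal.absNorm v.asIdeal ≠ 0)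

theorem regulator_eq (D : RubinData F H G) (T₁ T₂ : Finset (HeightOneSpectrum (𝓞 F)))
    {U₁ U₂ : Subgroup Hˣ} (u₁ : Wedge G D.r U₁) (u₂ : Wedge G D.r U₂)
    (s₁ : D.IsStark T₁ u₁) (s₂ : D.IsStark T₂ u₂) (χ : G →* ℂˣ) :
    charValue χ (toR (D.delta T₂)) * charValue χ (u₁.regulator D.w) =
      charValue χ (toR (D.delta T₁)) * charValue χ (u₂.regulator D.w) := by
  have a1 := (tendsto_prod D χ T₂).mul (s₁ χ)
  have a2 := (tendsto_prod D χ T₁).mul (s₂ χ)
  refine tendsto_nhds_unique a1 (a2.congr' ?_)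
  refine Filter.Eventually.of_forall fun s => ?_
  simp only [RubinData.LT]
  ring

theorem charValue_regulator (D : RubinData F H G) {U : Subgroup Hˣ} (u : Wedge G D.r U)
    (χ : G →* ℂˣ) :
    charValue χ (u.regulator D.w) = ∑ k, cvQ χ (u.c k) *
      Matrix.det (Matrix.of fun a b => charValue χ (reg G (D.w a) (u.x k b : Hˣ))) := by
  rw [charValue_eq]
  unfold Wedge.regulator
  rw [map_sum]
  refine Finset.sum_congr rfl fun k _ => ?_
  rw [map_mul, cvQ_apply, charValue_eq]
  congr 1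
  rw [AlgHom.map_det]
  congr 1
  ext a b
  simp [charValue_eq]

theorem cvQ_wval (D : RubinData F H G) {U : Subgroup Hˣ}
    (hU : U ≤ unitGroup (H := H) (D.S : Set (HeightOneSpectrum (𝓞 F))) ∅)
    (f : Fin D.r → Additive (unitGroup (H := H) (D.S : Set (HeightOneSpectrum (𝓞 F))) ∅) →+
      MonoidAlgebra ℚ G) (u : Wedge G D.r U) (χ : G →* ℂˣ) :
    cvQ χ (wval D hU f u) = ∑ k, cvQ χ (u.c k) *
      Matrix.det (Matrix.of fun i j =>
        cvQ χ (f i (Additive.ofMul ⟨(u.x k j : Hˣ), hU (u.x k j).2⟩))) := by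
  unfold wval
  rw [map_sum]
  refine Finset.sum_congr rfl fun k _ => ?_
  rw [map_mul, RingHom.map_det]
  congr 2

theorem t_UNIQ : S_SPANREG → S_UNIQ := by
  intro hspan F H G _ _ _ _ _ _ _ _ _ D T₁ T₂ U₁ U₂ h₁ h₂ u₁ u₂ e₁ e₂ s₁ s₂ f hf
  rw [← sub_eq_zero]
  refine eq_zero_of_charValue _ fun χ => ?_
  rw [← cvQ_apply, map_sub, map_mul, map_mul, sub_eq_zero]
  by_cases hχ : D.Active χ
  · have hg : ∀ i, ∃ a : Fin D.r → ℂ,
        ∀ x : unitGroup (H := H) (D.S : Set (HeightOneSpectrum (𝓞 F))) ∅,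
        cvQ χ (f i (Additive.ofMul x)) = ∑ j, a j * charValue χ (reg G (D.w j) (x : Hˣ)) := by
      intro i
      refine hspan F H G D χ hχ ((cvQ χ : MonoidAlgebra ℚ G →+ ℂ).comp (f i)) ?_
      intro γ x y hxy
      have h := hf i γ x y hxy
      change cvQ χ (f i (Additive.ofMul y)) = (χ γ : ℂ) * cvQ χ (f i (Additive.ofMul x))
      rw [h, map_mul]
      congr 1
      rw [cvQ_apply, charValue_eq, toR_single, cvHom_single]
      simp
    choose C hC using hg
    have key : ∀ {U : Subgroup Hˣ}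
        (hU : U ≤ unitGroup (H := H) (D.S : Set (HeightOneSpectrum (𝓞 F))) ∅)
        (u : Wedge G D.r U),
        cvQ χ (wval D hU f u) = Matrix.det (Matrix.of C) * charValue χ (u.regulator D.w) := by
      intro U hU u
      rw [cvQ_wval, charValue_regulator, Finset.mul_sum]
      refine Finset.sum_congr rfl fun k _ => ?_
      have : (Matrix.of fun i j =>
          cvQ χ (f i (Additive.ofMul ⟨(u.x k j : Hˣ), hU (u.x k j).2⟩))) =
          (Matrix.of C) * (Matrix.of fun a b => charValue χ (reg G (D.w a) (u.x k b : Hˣ))) := by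
        ext i j
        rw [Matrix.mul_apply]
        exact hC i _
      rw [this, Matrix.det_mul]
      ring
    rw [key h₁ u₁, key h₂ u₂, cvQ_apply, cvQ_apply]
    have := regulator_eq D T₁ T₂ u₁ u₂ s₁ s₂ χ
    linear_combination Matrix.det (Matrix.of C) * this
  · have key : ∀ {U : Subgroup Hˣ}
        (hU : U ≤ unitGroup (H := H) (D.S : Set (HeightOneSpectrum (𝓞 F))) ∅)
        (u : Wedge G D.r U), D.InER u → cvQ χ (wval D hU f u) = 0 := by
      intro U hU u hu
      rw [cvQ_wval]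
      refine Finset.sum_eq_zero fun k _ => ?_
      rw [cvQ_apply χ (u.c k), hu χ hχ k, zero_mul]
    rw [key h₁ u₁ e₁, key h₂ u₂ e₂, mul_zero, mul_zero]

end Pool.Agent.K3h3.RS
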